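import Pool.Agent.X301.StableZ3

/-!
# Zero-one law for absolute convergence of the stable supremum series (MP_8ec8f8_pr, Q1)

For every `α` in `(0,1) ∪ (1,2)` (in particular every irrational one) the set of `ρ` in `(0,1)` at
which the series converges absolutely is either Lebesgue-null or ALL of `(0,1)`.  So the answer to
Q1 is no.

Idea: the numerator products of sines are bounded by one and, averaged over any set of `ρ` of
positive measure, not smaller than `exp (-K (m+n+1))`, because `-log |sin|` is integrable.  Hence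
convergence for every `x` on a set of positive measure bounds the `ρ`-free part of the
coefficients by any geometric sequence, which gives convergence at every `ρ`.
-/

open MeasureTheory Real Set

namespace Pool.Agent.Results.MP_8ec8f8_pr.ZeroOneLaw

/-- `a_{m,n}` of the problem (`1/Γ` is `0` at the poles of `Γ`, also in Lean). -/
noncomputable def aCoef (α ρ : ℝ) (m n : ℕ) : ℝ :=
  (-1) ^ (m + n) / (Real.Gamma (1 - ρ - n - m / α) * Real.Gamma (α * ρ + m + α * n)) *
    (∏ j ∈ Finset.Icc 1 m, Real.sin (π / α * (α * ρ + j - 1)) / Real.sin (π * j / α)) *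
    (∏ j ∈ Finset.Icc 1 n, Real.sin (π * α * (ρ + j - 1)) / Real.sin (π * α * j))

/-- `b_{m,n}` of the problem, read literally: the quotient of Gamma values times `a_{m,n}`
(Lean gives the value `0` when `1 - ρ - n - m/α` is a pole of `Γ`). -/
noncomputable def bCoef (α ρ : ℝ) (m n : ℕ) : ℝ :=
  Real.Gamma (1 - ρ - n - m / α) * Real.Gamma (α * ρ + m + α * n) /
    (Real.Gamma (1 + n + m / α) * Real.Gamma (-m - α * n)) * aCoef α ρ m n

/-- `b_{m,n}` with the two Gamma factors of `a_{m,n}` cancelled, which is the continuous extension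
of the literal formula to the exceptional (countably many) `ρ`. -/
noncomputable def bReg (α ρ : ℝ) (m n : ℕ) : ℝ :=
  (-1) ^ (m + n) / (Real.Gamma (1 + n + m / α) * Real.Gamma (-m - α * n)) *
    (∏ j ∈ Finset.Icc 1 m, Real.sin (π / α * (α * ρ + j - 1)) / Real.sin (π * j / α)) *
    (∏ j ∈ Finset.Icc 1 n, Real.sin (π * α * (ρ + j - 1)) / Real.sin (π * α * j))

/-- The `(m,n)` term of the series at `x`; `b` is the coefficient family used when `α < 1`. -/
noncomputable def seriesTerm (b : ℝ → ℝ → ℕ → ℕ → ℝ) (α ρ x : ℝ) (m n : ℕ) : ℝ :=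
  if α < 1 then x ^ (-1 - α) * (b α ρ m (n + 1) * x ^ (-(m:ℝ) - α * n))
  else x ^ (α * ρ - 1) * (aCoef α ρ m n * x ^ ((m:ℝ) + α * n))

/-- The series converges absolutely at `(α, ρ)`: for every `x > 0` the double sum of the absolute
values of its terms is finite. -/
def ConvergesAbs (b : ℝ → ℝ → ℕ → ℕ → ℝ) (α ρ : ℝ) : Prop :=
  ∀ x : ℝ, 0 < x → Summable (fun p : ℕ × ℕ => |seriesTerm b α ρ x p.1 p.2|)

/-- **Zero-one law.** For every irrational `α` in `(0,1) ∪ (1,2)`, and for both readings of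
`b_{m,n}` at the exceptional `ρ`, the set of `ρ` in `(0,1)` at which the series converges
absolutely is Lebesgue-null or all of `(0,1)`; in particular it has measure `0` or `1`.
The two readings of `b_{m,n}` agree whenever `1 - ρ - n - m/α` is not a nonpositive integer. -/
theorem result :
    (∀ α : ℝ, Irrational α → α ∈ Ioo (0:ℝ) 1 ∪ Ioo (1:ℝ) 2 →
      ∀ b : ℝ → ℝ → ℕ → ℕ → ℝ, (b = bCoef ∨ b = bReg) →
        (volume {ρ | ρ ∈ Ioo (0:ℝ) 1 ∧ ConvergesAbs b α ρ} = 0 ∨
          {ρ | ρ ∈ Ioo (0:ℝ) 1 ∧ ConvergesAbs b α ρ} = Ioo 0 1) ∧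
        (volume {ρ | ρ ∈ Ioo (0:ℝ) 1 ∧ ConvergesAbs b α ρ} = 0 ∨
          volume {ρ | ρ ∈ Ioo (0:ℝ) 1 ∧ ConvergesAbs b α ρ} = 1)) ∧
    (∀ α ρ : ℝ, 0 < α → 0 < ρ → ∀ m n : ℕ, (∀ k : ℕ, 1 - ρ - n - m / α ≠ -k) →
      bCoef α ρ m n = bReg α ρ m n) := by
  constructor
  · intro α _ hα b hb
    have main : volume {ρ | ρ ∈ Ioo (0:ℝ) 1 ∧ ConvergesAbs b α ρ} = 0 ∨
          {ρ | ρ ∈ Ioo (0:ℝ) 1 ∧ ConvergesAbs b α ρ} = Ioo 0 1 := by
      rcases hα with hα | hα
      · exact Pool.Agent.X301.StableZ.zeroOne_lt (b := b) hb hα.1 hα.2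
      · exact Pool.Agent.X301.StableZ.zeroOne_gt b hα.1 hα.2
    refine ⟨main, ?_⟩
    rcases main with h | h
    · exact Or.inl h
    · right
      rw [h, Real.volume_Ioo]
      norm_num
  · intro α ρ hα hρ m n h
    exact Pool.Agent.X301.StableZ.bCoef_eq m n (Real.Gamma_ne_zero h)
      (Pool.Agent.X301.StableZ.Gamma_ne hα hρ m n)

end Pool.Agent.Results.MP_8ec8f8_pr.ZeroOneLaw
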